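import Pool.Agent.Lib.MP_28303a_al.NT.EX73.Pt
import Pool.Agent.Lib.MP_28303a_al.NT.EX.Defs

/-! # Row KAP: class functions of families -/

set_option autoImplicit false
set_option linter.unusedSectionVars false
set_option linter.unusedVariables false

namespace Pool.Agent.NegK.NT.EX73

universe u

open CategoryTheory Limits Idempotents Pool.Agent.NegK.NT.EX

/-- The conjugation by an element which moves `x` to `y`. -/
def cj {Γ : Type u} [Group Γ] {X : Type u} [MulAction Γ X] {x y : X} (g : Γ) (h : g • x = y) :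
    MulAction.stabilizer Γ x →* MulAction.stabilizer Γ y where
  toFun a := ⟨g * a * g⁻¹, by
    rw [MulAction.mem_stabilizer_iff, ← h, mul_smul, mul_smul, inv_smul_smul,
      MulAction.mem_stabilizer_iff.1 a.2]⟩
  map_one' := Subtype.ext (by
    show g * 1 * g⁻¹ = 1
    rw [mul_one, mul_inv_cancel])
  map_mul' a b := Subtype.ext (by
    show g * (a * b) * g⁻¹ = (g * a * g⁻¹) * (g * b * g⁻¹)
    group)

/-- KAP. -/
theorem kapS : KapStatement.{u} := by
  intro k _ Γ _ X _ G _ Φ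
  obtain ⟨ν⟩ := exists_nf Γ X
  have hP : ∀ x y, (dis Γ X).le x y → x = y := fun x y h => h
  refine ⟨kap hP ν Φ.φ, ⟨fun Y => Iff.rfl, fun x q => ?_⟩⟩
  have hfin : Finite (atx x q).X.ι := inferInstanceAs (Finite (ULift.{u} (Fin q.n)))
  show (∑ᶠ y, kx hP ν Φ.φ (atx x q) y) = _
  rw [finsum_eq_single _ (⟨ν.R x, nf_RR ν x⟩ : {x : X // ν.R x = x})]
  · rw [kx_iso hP ν Φ.φ (Iso.refl _) hfin]
    have h1 := fibPt (k := k) hP ν x q (cj (ν.c x) (ν.c_smul x)) (fun a => rfl)
    have h2 := Φ.conj (ν.c x) x (ν.R x) (cj (ν.c x) (ν.c_smul x)) (ν.c_smul x).symm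
      (fun a => rfl) (K0.cls q)
    exact (congrArg (Φ.φ (ν.R x)) h1).trans h2
  · intro y hy
    rw [kx_iso hP ν Φ.φ (Iso.refl _) hfin]
    refine (congrArg (Φ.φ y.1) (kx_zero hP ν (atx x q) y ?_)).trans (map_zero (Φ.φ y.1))
    intro i hi
    exact hy (Subtype.ext hi.symm)

end Pool.Agent.NegK.NT.EX73
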