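import Pool.Agent.Lib.MP_28303a_al.NT.ER61.SysR
import Pool.Agent.Lib.MP_28303a_al.NT.EX.Defs

/-! # The marked tree: sides of the edges, isomorphism with the given tree -/

set_option autoImplicit false
set_option linter.unusedSectionVars false
set_option linter.unusedVariables false

namespace Pool.Agent.NegK.NT.EX73

universe u

open SimpleGraph Pool.Agent.NegK.TW Pool.Agent.NegK.NT.H66.TD Pool.Agent.NegK.NT.ER61

/-- The sides of the edges for the labels of one tree, and an isomorphism to a graph. -/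
structure MkR {Γ : Type u} [Group Γ] {W : Type u} [MulAction Γ W] (G : SimpleGraph W) (L : TL Γ)
    [MulAction Γ L.V] (sd : L.E → L.V → Prop) (f : L.V ≃ W) : Prop where
  s : ∀ e, sd e (L.s e)
  t : ∀ e, ¬ sd e (L.t e)
  ne : ∀ e e', e' ≠ e → (sd e (L.s e') ↔ sd e (L.t e'))
  f_smul : ∀ (g : Γ) v, f (g • v) = g • f v
  f_adj : ∀ e, G.Adj (f (L.s e)) (f (L.t e))
  f_surj : ∀ v w, G.Adj v w → ∃ e, (f (L.s e) = v ∧ f (L.t e) = w) ∨ (f (L.s e) = w ∧ f (L.t e) = v)

section one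

variable {Γ : Type u} [Group Γ] {V E : Type u} [iV : MulAction Γ V] [iE : MulAction Γ E]
  {G : SimpleGraph V} (T : OTree Γ V E) (hT : T.Of G) (hA : TreeAct Γ G)

/-- The marking. -/
theorem mkR (hE : Nonempty E) :
    @MkR Γ _ V _ G (TL.mark T hT hA hE) iV (fun e v => v ∈ T.H e) (Equiv.refl V) :=
  letI : MulAction Γ (TL.mark T hT hA hE).V := iV
  { s := fun e => T.t_mem e
    t := fun e => T.o_notMem e
    ne := fun e e' h => (T.cross e e' h).symm
    f_smul := fun g v => rfl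
    f_adj := fun e => (hT.adj e).symm
    f_surj := fun v w h => by
      rcases hT.surj v w h with ⟨e, h1, h2⟩ | ⟨e, h1, h2⟩
      · exact ⟨e, Or.inr ⟨h2, h1⟩⟩
      · exact ⟨e, Or.inl ⟨h2, h1⟩⟩ }

end one

/-- SYSX. -/
theorem sysx : EX.SysxStatement.{u} := by
  intro Γ _ Y j hj
  have hE : Nonempty (oE Y j) := oE_nonempty Y j hj
  obtain ⟨aV, aE, M, sd, f, R⟩ : ∃ (aV : MulAction Γ (fam Y j hE j).V)
      (aE : MulAction Γ (fam Y j hE j).E) (M : MkL (fam Y j hE j))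
      (sd : (fam Y j hE j).E → (fam Y j hE j).V → Prop)
      (f : (fam Y j hE j).V ≃ Y.V j), MkR (Y.G j) (fam Y j hE j) sd f := by
    rw [fam_self Y hE]
    exact ⟨_, _, mkL (oT Y j) (oOf Y j) (Y.tree j) hE, _, _,
      mkR (oT Y j) (oOf Y j) (Y.tree j) hE⟩
  let K : @ER.Mk Γ _ (msys Y hE) (mtr Y hE) j aV aE :=
    letI : MulAction Γ ((mtr Y hE).V j) := aV
    letI : MulAction Γ ((mtr Y hE).E j) := aE
    { vt_smul := M.vt_smul
      ed_smul := M.ed_smul
      s_smul := M.s_smul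
      t_smul := M.t_smul
      vt_inj := M.vt_inj
      ed_inj := M.ed_inj
      st := M.st
      vt_min := M.vt_min
      vt_ed := M.vt_ed
      ed_le := M.ed_le
      ed_vt := M.ed_vt
      fin := TL.fin_sys (fam Y j hE) }
  refine ⟨msys Y hE, rfl, mtr Y hE, j, aV, aE, K, sd, f, ⟨R.s, R.t, R.ne⟩, R.f_smul,
    R.f_adj, ?_, ?_, ?_⟩
  · intro U hU
    refine stab_nv Y hE U ?_
    rintro ⟨v, hv⟩
    exact hU v hv
  · intro x
    obtain ⟨v, hv⟩ := fam_fix Y hE j x
    exact ⟨v, fun g hg => MulAction.mem_stabilizer_iff.2 (hv g (MulAction.mem_stabilizer_iff.1 hg))⟩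
  · exact ⟨(fam Y j hE j).sz, (fam Y j hE j).sz_smul, (fam Y j hE j).sz_lt⟩

end Pool.Agent.NegK.NT.EX73
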