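import Pool.Agent.Lib.MP_28303a_al.NT.H65.Eul
import Pool.Agent.Lib.MP_28303a_al.TW.Base

/-! # Located free modules over a discrete preorder: the fibres -/

set_option autoImplicit false
set_option linter.unusedSectionVars false
set_option linter.unusedVariables false

namespace Pool.Agent.NegK.NT.EX73

universe u

open CategoryTheory Limits Idempotents

/-! ### Restriction of the coefficients to a subgroup -/

section

variable {k : Type u} [Ring k] {Γ : Type u} [Group Γ]

/-- The coefficients in a subgroup. -/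
noncomputable def rs (k : Type u) [Ring k] {Γ : Type u} [Group Γ] (H : Subgroup Γ) :
    MonoidAlgebra k Γ →+ MonoidAlgebra k H :=
  MonoidAlgebra.comapDomainAddMonoidHom H.subtype H.subtype_injective

theorem rs_single (H : Subgroup Γ) (h : H) (a : k) :
    rs k H (MonoidAlgebra.single (h : Γ) a) = MonoidAlgebra.single h a :=
  MonoidAlgebra.comapDomain_single_map H.subtype H.subtype_injective h a

theorem rs_single0 (H : Subgroup Γ) {g : Γ} (hg : g ∉ H) (a : k) :
    rs k H (MonoidAlgebra.single g a) = 0 :=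
  MonoidAlgebra.comapDomain_single_of_not_mem_range (f := H.subtype) (by
    rintro ⟨h, h1⟩
    exact hg (h1 ▸ h.2)) H.subtype_injective

theorem mdr_single {H : Subgroup Γ} (h : H) (a : k) :
    mdr k H.subtype (MonoidAlgebra.single h a) = MonoidAlgebra.single (h : Γ) a :=
  MonoidAlgebra.mapDomain_single

theorem rs_mul (H : Subgroup Γ) (b : MonoidAlgebra k H) (a : MonoidAlgebra k Γ) :
    rs k H (mdr k H.subtype b * a) = b * rs k H a := by
  induction b using MonoidAlgebra.induction_linear with
  | zero => rw [map_zero, zero_mul, map_zero, zero_mul]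
  | add x y hx hy => rw [map_add, add_mul, map_add, hx, hy, add_mul]
  | single h r =>
    induction a using MonoidAlgebra.induction_linear with
    | zero => rw [mul_zero, map_zero, mul_zero]
    | add x y hx hy => rw [mul_add, map_add, hx, hy, map_add, mul_add]
    | single g s =>
      rw [mdr_single, MonoidAlgebra.single_mul_single]
      by_cases hg : g ∈ H
      · have h1 := rs_single (k := k) H ⟨g, hg⟩ s
        have h2 := rs_single (k := k) H (h * ⟨g, hg⟩) (r * s)
        rw [h1, MonoidAlgebra.single_mul_single]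
        exact h2
      · rw [rs_single0 H hg, mul_zero, rs_single0]
        intro h1
        exact hg ((H.mul_mem_cancel_left h.2).1 h1)

theorem rs_mdr (H : Subgroup Γ) (b : MonoidAlgebra k H) : rs k H (mdr k H.subtype b) = b := by
  have h := rs_mul H b 1
  rw [mul_one] at h
  rw [h]
  have h1 := rs_single (k := k) H 1 1
  rw [MonoidAlgebra.one_def]
  refine (congrArg (fun x => b * x) h1).trans ?_
  rw [← MonoidAlgebra.one_def, mul_one]

theorem mdr_rs (H : Subgroup Γ) (a : MonoidAlgebra k Γ) (ha : ∀ g, a.coeff g ≠ 0 → g ∈ H) :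
    mdr k H.subtype (rs k H a) = a := by
  refine MonoidAlgebra.mapDomain_comapDomain ?_ H.subtype_injective
  intro g hg
  exact ⟨⟨g, ha g (Finsupp.mem_support_iff.1 hg)⟩, rfl⟩

end

/-! ### Normal forms -/

/-- Representatives of the orbits. -/
structure Nf (Γ : Type u) [Group Γ] (X : Type u) [MulAction Γ X] where
  R : X → X
  c : X → Γ
  c_smul : ∀ y, c y • y = R y
  R_smul : ∀ (g : Γ) y, R (g • y) = R y

theorem exists_nf (Γ : Type u) [Group Γ] (X : Type u) [MulAction Γ X] : Nonempty (Nf Γ X) := by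
  classical
  let q : X → Quotient (MulAction.orbitRel Γ X) := fun y => Quotient.mk _ y
  let R : X → X := fun y => (q y).out
  have h1 : ∀ y, ∃ g : Γ, g • y = R y := by
    intro y
    have h2 : (MulAction.orbitRel Γ X).r (R y) y := Quotient.exact (q y).out_eq
    exact h2
  choose c hc using h1
  refine ⟨⟨R, c, hc, fun g y => ?_⟩⟩
  have h2 : q (g • y) = q y := Quotient.sound ⟨g, rfl⟩
  show (q (g • y)).out = (q y).out
  rw [h2]

/-- The trivial preorder on a point. -/
def tr (H : Type u) [Group H] : Pre H PUnit.{u + 1} where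
  le _ _ := True
  refl _ := trivial
  trans _ _ := trivial
  smul _ _ _ _ := trivial

section

variable {k : Type u} [Ring k] {Γ : Type u} [Group Γ] {X : Type u} [MulAction Γ X] {P : Pre Γ X}
  (hP : ∀ x y, P.le x y → x = y) (ν : Nf Γ X) (x : X)

/-- The fibre over the representative `x`. -/
abbrev fob (A : Loc k P) : Loc k (tr (MulAction.stabilizer Γ x)) :=
  ⟨{i : A.ι // ν.R (A.loc i) = x}, fun _ => PUnit.unit⟩

open Classical in
/-- The coordinates in the fibre. -/
noncomputable def T (A : Loc k P) : A.F →+ (fob ν x A).F :=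
  Finsupp.liftAddHom fun i => if h : ν.R (A.loc i) = x then
    (Finsupp.singleAddHom (⟨i, h⟩ : (fob ν x A).ι)).comp ((rs k (MulAction.stabilizer Γ x)).comp
      (AddMonoidHom.mulRight (MonoidAlgebra.single (ν.c (A.loc i))⁻¹ 1))) else 0

theorem T_pos (A : Loc k P) {i : A.ι} (h : ν.R (A.loc i) = x) (a : MonoidAlgebra k Γ) :
    T ν x A (Finsupp.single i a) = Finsupp.single (⟨i, h⟩ : (fob ν x A).ι)
      (rs k _ (a * MonoidAlgebra.single (ν.c (A.loc i))⁻¹ 1)) := by
  rw [T, Finsupp.liftAddHom_apply_single, dif_pos h]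
  rfl

theorem T_neg (A : Loc k P) {i : A.ι} (h : ¬ ν.R (A.loc i) = x) (a : MonoidAlgebra k Γ) :
    T ν x A (Finsupp.single i a) = 0 := by
  rw [T, Finsupp.liftAddHom_apply_single, dif_neg h]
  rfl

theorem T_smul (A : Loc k P) (b : MonoidAlgebra k (MulAction.stabilizer Γ x)) (v : A.F) :
    T ν x A (mdr k (MulAction.stabilizer Γ x).subtype b • v) = b • T ν x A v := by
  induction v using Finsupp.induction_linear with
  | zero => rw [smul_zero, map_zero, smul_zero]
  | add v w hv hw => rw [smul_add, map_add, hv, hw, map_add, smul_add]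
  | single i a =>
    rw [Finsupp.smul_single, smul_eq_mul]
    by_cases h : ν.R (A.loc i) = x
    · rw [T_pos ν x A h, T_pos ν x A h, Finsupp.smul_single, smul_eq_mul, mul_assoc, rs_mul]
    · rw [T_neg ν x A h, T_neg ν x A h, smul_zero]

/-- The map of the fibres. -/
noncomputable def fmp {A A' : Loc k P} (f : A ⟶ A') : fob ν x A ⟶ fob ν x A' :=
  Loc.ofB (fun p => T ν x A' (Loc.lin f (Finsupp.single p.1
    (MonoidAlgebra.single (ν.c (A.loc p.1)) 1)))) fun _ _ _ _ => trivial

theorem lin_fmp {A A' : Loc k P} (f : A ⟶ A') (p : (fob ν x A).ι) :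
    Loc.lin (fmp ν x f) (Finsupp.single p 1) = T ν x A' (Loc.lin f (Finsupp.single p.1
    (MonoidAlgebra.single (ν.c (A.loc p.1)) 1))) := Loc.lin_ofB _ _ _

variable {x} (hx : ν.R x = x)

include hx

theorem fmp_T1 {A A' : Loc k P} (f : A ⟶ A') (i : A.ι) (g : Γ) (r : k) (h : g • A.loc i = x) :
    Loc.lin (fmp ν x f) (T ν x A (Finsupp.single i (MonoidAlgebra.single g r))) =
      T ν x A' (Loc.lin f (Finsupp.single i (MonoidAlgebra.single g r))) := by
  have hi : ν.R (A.loc i) = x := by rw [← ν.R_smul g, h, hx]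
  have h1 : g * (ν.c (A.loc i))⁻¹ ∈ MulAction.stabilizer Γ x := by
    rw [MulAction.mem_stabilizer_iff, mul_smul]
    nth_rewrite 1 [← hi]
    rw [← ν.c_smul, inv_smul_smul, h]
  have h2 : rs k (MulAction.stabilizer Γ x) (MonoidAlgebra.single g r *
      MonoidAlgebra.single (ν.c (A.loc i))⁻¹ 1) = MonoidAlgebra.single ⟨_, h1⟩ r := by
    rw [MonoidAlgebra.single_mul_single, mul_one]
    exact rs_single (MulAction.stabilizer Γ x) ⟨_, h1⟩ r
  have h3 : (Finsupp.single (⟨i, hi⟩ : (fob ν x A).ι) (MonoidAlgebra.single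
      (⟨_, h1⟩ : MulAction.stabilizer Γ x) r)) = (MonoidAlgebra.single
      (⟨_, h1⟩ : MulAction.stabilizer Γ x) r) • Finsupp.single (⟨i, hi⟩ : (fob ν x A).ι)
        (1 : MonoidAlgebra k (MulAction.stabilizer Γ x)) := by
    rw [Finsupp.smul_single, smul_eq_mul, mul_one]
  have h4 : (Finsupp.single i (MonoidAlgebra.single g r) : A.F) =
      mdr k (MulAction.stabilizer Γ x).subtype (MonoidAlgebra.single
        (⟨_, h1⟩ : MulAction.stabilizer Γ x) r) •
          Finsupp.single i (MonoidAlgebra.single (ν.c (A.loc i)) 1) := by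
    rw [mdr_single, Finsupp.smul_single, smul_eq_mul, MonoidAlgebra.single_mul_single,
      inv_mul_cancel_right, mul_one]
  rw [T_pos ν x A hi, h2, h3, map_smul, lin_fmp, h4, map_smul, T_smul]

/-- The fibre map on elements of degree `x`. -/
theorem fmp_T {A A' : Loc k P} (f : A ⟶ A') (v : A.F)
    (hv : ∀ i g, (v i).coeff g ≠ 0 → g • A.loc i = x) :
    Loc.lin (fmp ν x f) (T ν x A v) = T ν x A' (Loc.lin f v) := by
  have h1 : v = ∑ i ∈ v.support, ∑ g ∈ (v i).coeff.support,
      Finsupp.single i (MonoidAlgebra.single g ((v i).coeff g)) := by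
    conv_lhs => rw [← Finsupp.sum_single v]
    refine Finset.sum_congr rfl fun i _ => ?_
    have h2 : v i = ∑ g ∈ (v i).coeff.support, MonoidAlgebra.single g ((v i).coeff g) := by
      refine MonoidAlgebra.coeff_injective ?_
      rw [MonoidAlgebra.coeff_sum]
      conv_lhs => rw [← Finsupp.sum_single (v i).coeff]
      refine Finset.sum_congr rfl fun g _ => ?_
      rw [MonoidAlgebra.coeff_single]
    conv_lhs => rw [h2]
    exact map_sum (Finsupp.singleAddHom i) _ _
  rw [h1, map_sum, map_sum, map_sum, map_sum]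
  refine Finset.sum_congr rfl fun i _ => ?_
  rw [map_sum, map_sum, map_sum, map_sum]
  refine Finset.sum_congr rfl fun g hg => ?_
  exact fmp_T1 ν hx f i g _ (hv i g (Finsupp.mem_support_iff.1 hg))

include hP

/-- The degree of the image. -/
theorem dg_lin {A A' : Loc k P} (f : A ⟶ A') (p : (fob ν x A).ι) (j : A'.ι) (g : Γ)
    (h : ((Loc.lin f (Finsupp.single p.1 (MonoidAlgebra.single (ν.c (A.loc p.1)) 1))) j).coeff g
      ≠ 0) : g • A'.loc j = x := by
  classical
  have h1 : (Finsupp.single p.1 (MonoidAlgebra.single (ν.c (A.loc p.1)) 1) : A.F) =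
      (MonoidAlgebra.single (ν.c (A.loc p.1)) (1 : k)) • Finsupp.single p.1 1 := by
    rw [Finsupp.smul_single, smul_eq_mul, mul_one]
  rw [h1, map_smul, Finsupp.smul_apply, smul_eq_mul] at h
  obtain ⟨g₁, g₂, h2, h3, rfl⟩ := Loc.exists_of_mul h
  have h4 : ν.c (A.loc p.1) = g₁ := by
    rw [MonoidAlgebra.coeff_single, Finsupp.single_apply] at h2
    by_contra hc
    rw [if_neg hc] at h2
    exact h2 rfl
  have h5 := hP _ _ (Loc.spt_lin f p.1 j g₂ h3)
  rw [mul_smul, ← h5, ← h4, ν.c_smul, p.2]

/-- The fibre over the representative `x`. -/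
noncomputable def fib : Loc k P ⥤ Loc k (tr (MulAction.stabilizer Γ x)) where
  obj A := fob ν x A
  map f := fmp ν x f
  map_id A := by
    refine Loc.ext_basis fun p => ?_
    have h1 : (MonoidAlgebra.single (ν.c (A.loc p.1)) (1 : k)) *
        MonoidAlgebra.single (ν.c (A.loc p.1))⁻¹ 1 =
          mdr k (MulAction.stabilizer Γ x).subtype 1 := by
      rw [MonoidAlgebra.single_mul_single, mul_one, mul_inv_cancel, map_one]
      rfl
    rw [lin_fmp, Loc.lin_id, LinearMap.id_apply, T_pos ν x A p.2, h1, rs_mdr]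
    rfl
  map_comp {A A' A''} f g := by
    refine Loc.ext_basis fun p => ?_
    rw [Loc.lin_comp, LinearMap.comp_apply, lin_fmp, lin_fmp, fmp_T ν hx g _ (dg_lin hP ν hx f p)]
    rfl

theorem fib_add : (fib (k := k) hP ν hx).Additive where
  map_add {A A' f g} := by
    refine Loc.ext_basis fun p => ?_
    rw [Loc.lin_add, LinearMap.add_apply]
    refine (lin_fmp ν x (f + g) p).trans ?_
    rw [Loc.lin_add, LinearMap.add_apply, map_add]
    exact congrArg₂ (· + ·) (lin_fmp ν x f p).symm (lin_fmp ν x g p).symm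

end

end Pool.Agent.NegK.NT.EX73
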