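import Pool.Agent.Lib.MP_28303a_al.NT.EX73.Fib
import Pool.Agent.Lib.MP_28303a_al.NT.H91.Kgen

/-! # Row KAP: the class function of a compatible family -/

set_option autoImplicit false
set_option linter.unusedSectionVars false
set_option linter.unusedVariables false

namespace Pool.Agent.NegK.NT.EX73

universe u w

open CategoryTheory Limits Idempotents

section

variable {k k' : Type u} [Ring k] [Ring k'] {Γ Γ' : Type u} [Group Γ] [Group Γ'] {B B' : Type u}
  [MulAction Γ B] [MulAction Γ' B'] {P : Pre Γ B} {Q : Pre Γ' B'}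

/-- The extension of a functor to the located projective modules. -/
noncomputable def kF (F : Loc k P ⥤ Loc k' Q) : KL k P ⥤ KL k' Q where
  obj X := ⟨F.obj X.X, F.map X.p, by rw [← Functor.map_comp, X.idem]⟩
  map {X Y} f := ⟨F.map f.f, by
    show F.map X.p ≫ F.map f.f ≫ F.map Y.p = F.map f.f
    rw [← Functor.map_comp, ← Functor.map_comp, f.comm]⟩
  map_id X := rfl
  map_comp f g := Karoubi.hom_ext _ _ (F.map_comp _ _)

theorem kF_add (F : Loc k P ⥤ Loc k' Q) [F.Additive] : (kF F).Additive where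
  map_add := Karoubi.hom_ext _ _ F.map_add

/-- The extension keeps finite objects. -/
theorem ef_kF (F : Loc k P ⥤ Loc k' Q) (hF : ∀ A, Finite A.ι → Finite (F.obj A).ι) {Z : KL k P}
    (hZ : H65.EF Z) : H65.EF ((kF F).obj Z) := by
  obtain ⟨Y, hY, ⟨φ⟩⟩ := hZ
  exact ⟨(kF F).obj Y, hF _ hY, ⟨(kF F).mapIso φ⟩⟩

/-- The pull back of the class function. -/
theorem pull_add (F : Loc k P ⥤ Loc k' Q) [F.Additive] (hF : ∀ A, Finite A.ι → Finite (F.obj A).ι)
    {X Y Z : KL k P} (i : X ⟶ Z) (p : Z ⟶ X) (j : Y ⟶ Z) (q : Z ⟶ Y) (hip : i ≫ p = 𝟙 X)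
    (hjq : j ≫ q = 𝟙 Y) (hiq : i ≫ q = 0) (hjp : j ≫ p = 0) (h : p ≫ i + q ≫ j = 𝟙 Z)
    (hX : H65.EF X) (hY : H65.EF Y) : H65.clE ((kF F).obj Z) =
      H65.clE ((kF F).obj X) + H65.clE ((kF F).obj Y) := by
  have := kF_add F
  refine ((H65.clF k' Q).add ((kF F).map i) ((kF F).map p) ((kF F).map j) ((kF F).map q) ?_ ?_ ?_ ?_
    ?_ (ef_kF F hF hX) (ef_kF F hF hY)).2
  · rw [← Functor.map_comp, hip, CategoryTheory.Functor.map_id]
  · rw [← Functor.map_comp, hjq, CategoryTheory.Functor.map_id]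
  · rw [← Functor.map_comp, hiq, Functor.map_zero]
  · rw [← Functor.map_comp, hjp, Functor.map_zero]
  · rw [← Functor.map_comp, ← Functor.map_comp, ← Functor.map_add, h, CategoryTheory.Functor.map_id]

end

section

variable {k : Type u} [Ring k] {Γ : Type u} [Group Γ] {X : Type u} [MulAction Γ X] {P : Pre Γ X}
  (hP : ∀ x y, P.le x y → x = y) (ν : Nf Γ X) {G : Type w} [AddCommGroup G]
  (φ : ∀ x : X, K0 (MonoidAlgebra k (MulAction.stabilizer Γ x)) →+ G)

/-- The class in the fibre. -/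
noncomputable def kx (Z : KL k P) (x : {x : X // ν.R x = x}) : G :=
  φ x.1 (H65.clE ((kF (fib hP ν x.2)).obj Z))

theorem fin_fib (x : {x : X // ν.R x = x}) (A : Loc k P) (hA : Finite A.ι) :
    Finite ((fib hP ν x.2).obj A).ι := Subtype.finite

theorem kx_iso {Z Y : KL k P} (e : Z ≅ Y) (hY : Finite Y.X.ι) (x : {x : X // ν.R x = x}) :
    kx hP ν φ Z x = φ x.1 (clsK ((kF (fib hP ν x.2)).obj Y)) := by
  have h1 : Finite ((kF (fib hP ν x.2)).obj Y).X.ι := fin_fib hP ν x Y.X hY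
  rw [kx, H65.clE_eq ((kF (fib hP ν x.2)).mapIso e)]

theorem kx_zero (Y : KL k P) (x : {x : X // ν.R x = x}) (h : ∀ i, ν.R (Y.X.loc i) ≠ x.1) :
    clsK ((kF (fib hP ν x.2)).obj Y) = 0 :=
  H91.clsK_eL k (tr (MulAction.stabilizer Γ x.1)) _ ⟨fun p => h p.1 p.2⟩

theorem kx_fin {Z : KL k P} (hZ : H65.EF Z) : (Function.support (kx hP ν φ Z)).Finite := by
  obtain ⟨Y, hY, ⟨e⟩⟩ := hZ
  have h0 : ∀ y, ν.R (ν.R y) = ν.R y := fun y =>
    (congrArg ν.R (ν.c_smul y)).symm.trans (ν.R_smul _ _)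
  have h1 : (Set.range fun i : Y.X.ι => (⟨ν.R (Y.X.loc i), h0 _⟩ : {x : X // ν.R x = x})).Finite :=
    Set.finite_range _
  refine h1.subset fun x hx => ?_
  by_contra hc
  refine hx ?_
  rw [kx_iso hP ν φ e hY, kx_zero hP ν Y x, map_zero]
  intro i hi
  exact hc ⟨i, Subtype.ext hi⟩

/-- The class function of the family `φ`. -/
noncomputable def kap : H65.ClF (KL k P) G where
  S := H65.EF
  cl Z := ∑ᶠ x, kx hP ν φ Z x
  iso := by
    rintro Z Z' e hZ
    refine ⟨((H65.clF k P).iso e hZ).1, finsum_congr fun x => ?_⟩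
    have h1 := ((H65.clF k _).iso ((kF (fib hP ν x.2)).mapIso e)
      (ef_kF _ (fin_fib hP ν x) hZ)).2
    exact congrArg (φ x.1) h1
  add := by
    rintro X' Y' Z' i p j q hip hjq hiq hjp h hX hY
    refine ⟨((H65.clF k P).add i p j q hip hjq hiq hjp h hX hY).1, ?_⟩
    rw [← finsum_add_distrib (kx_fin hP ν φ hX) (kx_fin hP ν φ hY)]
    refine finsum_congr fun x => ?_
    have := fib_add (k := k) hP ν x.2
    rw [kx, pull_add (fib hP ν x.2) (fin_fib hP ν x) i p j q hip hjq hiq hjp h hX hY, map_add]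
    rfl
  spl := (H65.clF k P).spl

end

end Pool.Agent.NegK.NT.EX73
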