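import Pool.Agent.Lib.MP_28303a_al.NT.EX73.Kap

/-! # Located projective modules at one point -/

set_option autoImplicit false
set_option linter.unusedSectionVars false
set_option linter.unusedVariables false

namespace Pool.Agent.NegK.NT.EX73

universe u w

open CategoryTheory Limits Idempotents

section

variable {k : Type u} [Ring k] {Γ : Type u} [Group Γ] {X : Type u} [MulAction Γ X] {P : Pre Γ X}

theorem mdr_ne {H : Subgroup Γ} {b : MonoidAlgebra k H} {g : Γ}
    (h : (mdr k H.subtype b).coeff g ≠ 0) : g ∈ H := by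
  classical
  by_contra hg
  refine h ?_
  induction b using MonoidAlgebra.induction_linear with
  | zero => rw [map_zero]; rfl
  | add x y hx hy =>
    rw [map_add, MonoidAlgebra.coeff_add, Finsupp.add_apply]
    by_cases h1 : (mdr k H.subtype x).coeff g = 0
    · by_cases h2 : (mdr k H.subtype y).coeff g = 0
      · rw [h1, h2, add_zero]
      · exact absurd (hy h2) h2
    · exact absurd (hx h1) h1
  | single a r =>
    rw [mdr_single, MonoidAlgebra.coeff_single, Finsupp.single_apply, if_neg]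
    rintro rfl
    exact hg a.2

/-- A finite basis at the point `v`. -/
abbrev pA (P : Pre Γ X) (k : Type u) [Ring k] (v : X) (n : ℕ) : Loc k P :=
  ⟨ULift.{u} (Fin n), fun _ => v⟩

/-- The rows of the matrix. -/
noncomputable def pr (P : Pre Γ X) (v : X) (p : Idem (MonoidAlgebra k (MulAction.stabilizer Γ v)))
    (i : (pA P k v p.n).ι) : (pA P k v p.n).F :=
  Finsupp.equivFunOnFinite.symm fun j =>
    mdr k (MulAction.stabilizer Γ v).subtype (p.e i.down j.down)

theorem pr_spt (P : Pre Γ X) (v : X) (p : Idem (MonoidAlgebra k (MulAction.stabilizer Γ v)))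
    (i j : (pA P k v p.n).ι) (g : Γ) (hg : (pr P v p i j).coeff g ≠ 0) :
    P.le ((pA P k v p.n).loc i) (g • (pA P k v p.n).loc j) := by
  have h1 : g • v = v := mdr_ne hg
  show P.le v (g • v)
  rw [h1]
  exact P.refl v

/-- The located projective module at the point `v` of an idempotent matrix over the group ring of
the stabilizer of `v`. -/
noncomputable def pt (P : Pre Γ X) (v : X) (p : Idem (MonoidAlgebra k (MulAction.stabilizer Γ v))) :
    KL k P where
  X := pA P k v p.n
  p := Loc.ofB (pr P v p) (pr_spt P v p)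
  idem := by
    refine Loc.ext_basis fun i => ?_
    refine Finsupp.ext fun j => ?_
    rw [Loc.lin_comp, LinearMap.comp_apply, Loc.map_apply, Finsupp.sum_fintype _ _
      (fun _ => zero_mul _)]
    simp only [Loc.lin_ofB (pr P v p) (pr_spt P v p)]
    change ∑ a : ULift.{u} (Fin p.n), mdr k (MulAction.stabilizer Γ v).subtype
      (p.e i.down a.down) * mdr k (MulAction.stabilizer Γ v).subtype (p.e a.down j.down) =
      mdr k (MulAction.stabilizer Γ v).subtype (p.e i.down j.down)
    have h1 := congrArg (mdr k (MulAction.stabilizer Γ v).subtype)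
      (congrFun (congrFun p.idem i.down) j.down)
    rw [Matrix.mul_apply, map_sum] at h1
    rw [← h1]
    refine (Equiv.sum_comp Equiv.ulift fun a => mdr k (MulAction.stabilizer Γ v).subtype
      (p.e i.down a) * mdr k (MulAction.stabilizer Γ v).subtype (p.e a j.down)).trans ?_
    exact Finset.sum_congr rfl fun a _ => (map_mul _ _ _).symm

theorem pt_lin (v : X) (p : Idem (MonoidAlgebra k (MulAction.stabilizer Γ v)))
    (i : (pA P k v p.n).ι) :
    Loc.lin (pt P v p).p (Finsupp.single i 1) = pr P v p i :=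
  Loc.lin_ofB (pr P v p) (pr_spt P v p) i

end

section

variable {k : Type u} [Ring k] {Γ : Type u} [Group Γ] {B : Type u} [MulAction Γ B] {P : Pre Γ B}

/-- Renaming of a basis. -/
noncomputable def ren {A A' : Loc k P} (σ : A.ι ≃ A'.ι) (h : ∀ i, P.le (A.loc i) (A'.loc (σ i))) :
    A ⟶ A' :=
  Loc.par (fun i => some (σ i)) fun i j hij => by
    cases hij
    exact h i

theorem lin_ren {A A' : Loc k P} (σ : A.ι ≃ A'.ι) (h : ∀ i, P.le (A.loc i) (A'.loc (σ i)))
    (i : A.ι) : Loc.lin (ren σ h) (Finsupp.single i 1) = Finsupp.single (σ i) 1 :=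
  Loc.par_some _ _ rfl

theorem ren_ren {A A' : Loc k P} (σ : A.ι ≃ A'.ι) (h : ∀ i, P.le (A.loc i) (A'.loc (σ i)))
    (h' : ∀ i, P.le (A'.loc i) (A.loc (σ.symm i))) : ren σ h ≫ ren σ.symm h' = 𝟙 A :=
  Loc.ext_basis fun i => by
    rw [Loc.lin_comp, LinearMap.comp_apply, lin_ren, lin_ren, σ.symm_apply_apply]
    rfl

theorem ren_ren' {A A' : Loc k P} (σ : A.ι ≃ A'.ι) (h : ∀ i, P.le (A.loc i) (A'.loc (σ i)))
    (h' : ∀ i, P.le (A'.loc i) (A.loc (σ.symm i))) : ren σ.symm h' ≫ ren σ h = 𝟙 A' :=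
  Loc.ext_basis fun i => by
    rw [Loc.lin_comp, LinearMap.comp_apply, lin_ren, lin_ren, σ.apply_symm_apply]
    rfl

/-- The coordinates of a renamed element. -/
theorem ren_apply {A A' : Loc k P} (σ : A.ι ≃ A'.ι) (h : ∀ i, P.le (A.loc i) (A'.loc (σ i)))
    (v : A.F) (j : A'.ι) : (Loc.lin (ren σ h) v) j = v (σ.symm j) := by
  classical
  induction v using Finsupp.induction_linear with
  | zero => rw [map_zero, Finsupp.zero_apply, Finsupp.zero_apply]
  | add v w hv hw => rw [map_add, Finsupp.add_apply, hv, hw, Finsupp.add_apply]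
  | single i a =>
    have h1 : (Finsupp.single i a : A.F) = a • Finsupp.single i 1 := by
      rw [Finsupp.smul_single, smul_eq_mul, mul_one]
    rw [h1, map_smul, lin_ren, Finsupp.smul_apply, Finsupp.smul_apply, Finsupp.single_apply,
      Finsupp.single_apply]
    by_cases h2 : i = σ.symm j
    · rw [if_pos h2, if_pos (by rw [h2, σ.apply_symm_apply])]
    · rw [if_neg h2, if_neg (fun h3 => h2 (by rw [← h3, σ.symm_apply_apply]))]

/-- The coordinates of a renamed map. -/
theorem ren_conj {A A' : Loc k P} (σ : A.ι ≃ A'.ι) (h : ∀ i, P.le (A.loc i) (A'.loc (σ i)))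
    (h' : ∀ i, P.le (A'.loc i) (A.loc (σ.symm i))) (f : A' ⟶ A') (i j : A.ι) :
    (Loc.lin (ren σ h ≫ f ≫ ren σ.symm h') (Finsupp.single i 1)) j =
      (Loc.lin f (Finsupp.single (σ i) 1)) (σ j) := by
  rw [Loc.lin_comp, Loc.lin_comp, LinearMap.comp_apply, LinearMap.comp_apply, ren_apply, lin_ren]
  rfl

/-- Isomorphic located projective modules. -/
noncomputable def isoK {Y Y' : KL k P} (a : Y.X ⟶ Y'.X) (b : Y'.X ⟶ Y.X) (hab : a ≫ b = 𝟙 _)
    (hba : b ≫ a = 𝟙 _) (h : Y.p = a ≫ Y'.p ≫ b) : Y ≅ Y' :=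
  have h1 : Y.p ≫ a = a ≫ Y'.p := by
    rw [h, Category.assoc, Category.assoc, hba, Category.comp_id]
  have h2 : b ≫ Y.p = Y'.p ≫ b := by
    rw [h, ← Category.assoc, hba, Category.id_comp]
  { hom := ⟨a ≫ Y'.p, by
      rw [← Category.assoc, ← Category.assoc, h1, Category.assoc a, Y'.idem, Category.assoc,
        Y'.idem]⟩
    inv := ⟨Y'.p ≫ b, by
      rw [← h2, Category.assoc, Y.idem, ← Category.assoc, ← h2, Category.assoc, Y.idem]⟩
    hom_inv_id := Karoubi.hom_ext _ _ (by
      show (a ≫ Y'.p) ≫ Y'.p ≫ b = Y.p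
      rw [Category.assoc, ← Category.assoc Y'.p, Y'.idem, h])
    inv_hom_id := Karoubi.hom_ext _ _ (by
      show (Y'.p ≫ b) ≫ a ≫ Y'.p = Y'.p
      rw [Category.assoc, ← Category.assoc b, hba, Category.id_comp, Y'.idem]) }

end

section

variable {k : Type u} [Ring k] {Γ : Type u} [Group Γ] {X : Type u} [MulAction Γ X] {P : Pre Γ X}
  (ν : Nf Γ X) (x : X)

/-- The coordinates. -/
theorem T_apply (A : Loc k P) (v : A.F) (q : (fob ν x A).ι) :
    (T ν x A v) q = rs k (MulAction.stabilizer Γ x)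
      (v q.1 * MonoidAlgebra.single (ν.c (A.loc q.1))⁻¹ 1) := by
  classical
  induction v using Finsupp.induction_linear with
  | zero => rw [map_zero, Finsupp.zero_apply, Finsupp.zero_apply, zero_mul, map_zero]
  | add v w hv hw =>
    rw [map_add, Finsupp.add_apply, hv, hw, Finsupp.add_apply, add_mul, map_add]
  | single i a =>
    by_cases h : ν.R (A.loc i) = x
    · rw [T_pos ν x A h, Finsupp.single_apply, Finsupp.single_apply]
      by_cases h1 : i = q.1
      · subst h1
        rw [if_pos rfl, if_pos rfl]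
      · rw [if_neg h1, if_neg (fun h2 => h1 (congrArg Subtype.val h2)), zero_mul, map_zero]
    · rw [T_neg ν x A h, Finsupp.zero_apply, Finsupp.single_apply,
        if_neg (fun h1 => h (by rw [h1]; exact q.2)), zero_mul, map_zero]

theorem fmp_apply {A A' : Loc k P} (f : A ⟶ A') (p : (fob ν x A).ι) (q : (fob ν x A').ι) :
    (Loc.lin (fmp ν x f) (Finsupp.single p 1)) q = rs k (MulAction.stabilizer Γ x)
      (MonoidAlgebra.single (ν.c (A.loc p.1)) 1 * (Loc.lin f (Finsupp.single p.1 1)) q.1 *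
        MonoidAlgebra.single (ν.c (A'.loc q.1))⁻¹ 1) := by
  have h1 : (Finsupp.single p.1 (MonoidAlgebra.single (ν.c (A.loc p.1)) 1) : A.F) =
      (MonoidAlgebra.single (ν.c (A.loc p.1)) (1 : k)) • Finsupp.single p.1 1 := by
    rw [Finsupp.smul_single, smul_eq_mul, mul_one]
  rw [lin_fmp, T_apply, h1, map_smul, Finsupp.smul_apply, smul_eq_mul]

/-- Conjugation. -/
theorem rs_conj (v : X) (c : Γ) (hc : c • v = x)
    (θ : MulAction.stabilizer Γ v →* MulAction.stabilizer Γ x)
    (hθ : ∀ a, (θ a : Γ) = c * a * c⁻¹) (b : MonoidAlgebra k (MulAction.stabilizer Γ v)) :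
    rs k (MulAction.stabilizer Γ x) (MonoidAlgebra.single c 1 *
      mdr k (MulAction.stabilizer Γ v).subtype b * MonoidAlgebra.single c⁻¹ 1) = mdr k θ b := by
  induction b using MonoidAlgebra.induction_linear with
  | zero => rw [map_zero, mul_zero, zero_mul, map_zero, map_zero]
  | add y z hy hz => rw [map_add, mul_add, add_mul, map_add, hy, hz, map_add]
  | single a r =>
    rw [mdr_single, MonoidAlgebra.single_mul_single, MonoidAlgebra.single_mul_single, one_mul,
      mul_one, ← hθ, rs_single]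
    exact MonoidAlgebra.mapDomain_single.symm

end

section

variable {k : Type u} [Ring k] {Γ : Type u} [Group Γ] {X : Type u} [MulAction Γ X] {P : Pre Γ X}
  (hP : ∀ x y, P.le x y → x = y) (ν : Nf Γ X) {G : Type w} [AddCommGroup G]
  (φ : ∀ x : X, K0 (MonoidAlgebra k (MulAction.stabilizer Γ x)) →+ G)

theorem nf_RR (y : X) : ν.R (ν.R y) = ν.R y := (congrArg ν.R (ν.c_smul y)).symm.trans (ν.R_smul _ _)

/-- The basis of the fibre of a point. -/
def eqv (v : X) (n : ℕ) : (fob ν (ν.R v) (pA P k v n)).ι ≃ ULift.{u} (Fin n) where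
  toFun i := i.1
  invFun i := ⟨i, rfl⟩
  left_inv _ := rfl
  right_inv _ := rfl

theorem fibPt (v : X) (p : Idem (MonoidAlgebra k (MulAction.stabilizer Γ v)))
    (θ : MulAction.stabilizer Γ v →* MulAction.stabilizer Γ (ν.R v))
    (hθ : ∀ a, (θ a : Γ) = ν.c v * a * (ν.c v)⁻¹) :
    clsK ((kF (fib hP ν (nf_RR ν v))).obj (pt P v p)) = K0.map (mdr k θ) (K0.cls p) := by
  rw [K0.map_cls, ← H91.clsK_Yp (P := tr (MulAction.stabilizer Γ (ν.R v))) (p.map (mdr k θ))
    PUnit.unit (fun _ _ => trivial)]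
  have h1 : Finite ((kF (fib hP ν (nf_RR ν v))).obj (pt P v p)).X.ι :=
    inferInstanceAs (Finite {i : ULift.{u} (Fin p.n) // ν.R v = ν.R v})
  have h2 : Finite (H91.Yp (P := tr (MulAction.stabilizer Γ (ν.R v))) (p.map (mdr k θ))
    PUnit.unit (fun _ _ => trivial)).X.ι := inferInstanceAs (Finite (ULift.{u} (Fin p.n)))
  refine H65.clsK_iso (isoK (ren (A := fob ν (ν.R v) (pA P k v p.n))
    (A' := (H91.Yp (P := tr (MulAction.stabilizer Γ (ν.R v))) (p.map (mdr k θ))
      PUnit.unit (fun _ _ => trivial)).X) (eqv ν v p.n) fun _ => trivial)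
    (ren (A := (H91.Yp (P := tr (MulAction.stabilizer Γ (ν.R v))) (p.map (mdr k θ))
      PUnit.unit (fun _ _ => trivial)).X) (A' := fob ν (ν.R v) (pA P k v p.n))
      (eqv ν v p.n).symm fun _ => trivial) (ren_ren _ _ _) (ren_ren' _ _ _) ?_)
  refine Loc.ext_basis fun i => Finsupp.ext fun j => ?_
  refine (fmp_apply ν (ν.R v) (pt P v p).p i j).trans ?_
  refine (congrArg (fun z : (pA P k v p.n).F => rs k (MulAction.stabilizer Γ (ν.R v))
    (MonoidAlgebra.single (ν.c v) 1 * z j.1 * MonoidAlgebra.single (ν.c v)⁻¹ 1))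
    (pt_lin v p i.1)).trans ?_
  refine (rs_conj (ν.R v) v (ν.c v) (ν.c_smul v) θ hθ (p.e i.1.down j.1.down)).trans ?_
  refine Eq.trans ?_ (ren_conj (A := fob ν (ν.R v) (pA P k v p.n))
    (A' := (H91.Yp (P := tr (MulAction.stabilizer Γ (ν.R v))) (p.map (mdr k θ))
      PUnit.unit (fun _ _ => trivial)).X) (eqv ν v p.n) (fun _ => trivial) (fun _ => trivial)
      (H91.Yp (P := tr (MulAction.stabilizer Γ (ν.R v))) (p.map (mdr k θ))
      PUnit.unit (fun _ _ => trivial)).p i j).symm
  exact (congrArg (fun x : ULift.{u} (Fin p.n) →₀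
    MonoidAlgebra k (MulAction.stabilizer Γ (ν.R v)) => x j.1) (Loc.lin_ofB
      (A := ⟨ULift.{u} (Fin p.n), fun _ => PUnit.unit⟩)
      (A' := ⟨ULift.{u} (Fin p.n), fun _ => PUnit.unit⟩)
      (P := tr (MulAction.stabilizer Γ (ν.R v)))
      (fun i => Finsupp.equivFunOnFinite.symm fun j => mdr k θ (p.e i.down j.down))
      (fun _ _ _ _ => trivial) i.1)).symm

end

end Pool.Agent.NegK.NT.EX73
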